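import Mathlib

namespace Pool.Agent.Results.MP_d92cd9_co.Even

open Finset

variable {n : ℕ}

/-- `b` is a non-minority ball of the colouring `c`: at least `n/2` balls have its colour. -/
def NonMin (c : Fin n → Bool) (b : Fin n) : Prop := n ≤ 2 * (univ.filter fun x => c x = c b).card

/-- `al` answers every query of `Q` validly under `c`. -/
def Valid (Q : Finset (Finset (Fin n))) (c : Fin n → Bool) (al : Q → Fin n) : Prop :=
  ∀ T : Q, al T ∈ T.1 ∧ ∃ x ∈ T.1, x ≠ al T ∧ c x = c (al T)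

/-- `Q` is a set of triples that determines a non-minority ball. -/
def Determines (Q : Finset (Finset (Fin n))) : Prop :=
  (∀ T ∈ Q, T.card = 3) ∧
    ∃ f : (Q → Fin n) → Fin n, ∀ c al, Valid Q c al → NonMin c (f al)

/-- Co-degree of a pair. -/
def codeg (Q : Finset (Finset (Fin n))) (x y : Fin n) : ℕ :=
  (Q.filter fun T => x ∈ T ∧ y ∈ T).card

/-- Minimum co-degree. -/
noncomputable def delta2 (Q : Finset (Finset (Fin n))) : ℕ :=
  sInf {d | ∃ x y, x ≠ y ∧ codeg Q x y = d}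

/-- The function `m(n)`. -/
noncomputable def m (n : ℕ) : ℕ :=
  sInf {d | ∃ Q : Finset (Finset (Fin n)), Determines Q ∧ delta2 Q = d}

theorem helly {X : Type} [DecidableEq X] (F : Finset (Finset X)) (z : X)
    (h2 : ∀ A ∈ F, ∀ B ∈ F, ∃ x, x ∈ A ∧ x ∈ B)
    (h3 : ∀ A ∈ F, ∀ B ∈ F, ∀ C ∈ F, ∀ a b c, a ∉ A → b ∈ A → c ∈ A → a ∈ B → b ∉ B → c ∈ B →
      a ∈ C → b ∈ C → c ∉ C → False) : ∃ x, ∀ A ∈ F, x ∈ A := by
  induction F using Finset.strongInduction with
  | H F ih =>
    by_contra hcon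
    push Not at hcon
    have key : ∀ A ∈ F, ∃ x, x ∉ A ∧ ∀ B ∈ F, B ≠ A → x ∈ B := by
      intro A hA
      obtain ⟨x, hx⟩ := ih (F.erase A) (erase_ssubset hA)
        (fun P hP R hR => h2 P (mem_of_mem_erase hP) R (mem_of_mem_erase hR))
        (fun P hP R hR S hS => h3 P (mem_of_mem_erase hP) R (mem_of_mem_erase hR) S
          (mem_of_mem_erase hS))
      refine ⟨x, fun hxA => ?_, fun B hB hne => hx B (mem_erase.2 ⟨hne, hB⟩)⟩
      obtain ⟨B, hB, hxB⟩ := hcon x
      by_cases h : B = A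
      · exact hxB (h ▸ hxA)
      · exact hxB (hx B (mem_erase.2 ⟨h, hB⟩))
    obtain ⟨A, hA, -⟩ := hcon z
    obtain ⟨x, hx, -⟩ := h2 A hA A hA
    obtain ⟨B, hB, hxB⟩ := hcon x
    obtain ⟨y, hyA, hyB⟩ := h2 A hA B hB
    obtain ⟨C, hC, hyC⟩ := hcon y
    have hAB : A ≠ B := fun h => hxB (h ▸ hx)
    have hAC : A ≠ C := fun h => hyC (h ▸ hyA)
    have hBC : B ≠ C := fun h => hyC (h ▸ hyB)
    obtain ⟨a, ha, ha'⟩ := key A hA
    obtain ⟨b, hb, hb'⟩ := key B hB
    obtain ⟨c, hc, hc'⟩ := key C hC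
    exact h3 A hA B hB C hC a b c ha (hb' A hA hAB) (hc' A hA hAC) (ha' B hB hAB.symm) hb
      (hc' B hB hBC) (ha' C hC hAC.symm) (hb' C hC hBC.symm) hc

theorem determines (z : Fin n) (hn : Even n) :
    Determines ((univ.erase z).powersetCard 3) := by
  classical
  refine ⟨fun T hT => (mem_powersetCard.1 hT).2, ?_⟩
  have hU : (univ.erase z).card + 1 = n := by
    rw [card_erase_of_mem (mem_univ _), card_univ, Fintype.card_fin]
    have := z.pos
    omega
  obtain ⟨k, hk⟩ := hn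
  have main : ∀ al : ((univ.erase z).powersetCard 3) → Fin n,
      ∃ b, ∀ c, Valid _ c al → NonMin c b := by
    intro al
    let F : Finset (Finset (Fin n)) := univ.filter fun A => ∃ c v, Valid _ c al ∧
      A = (univ.erase z).filter (fun x => c x = v) ∧ k ≤ A.card
    have hF : ∀ A ∈ F, ∃ c v, Valid _ c al ∧
        A = (univ.erase z).filter (fun x => c x = v) ∧ k ≤ A.card := fun A hA => (mem_filter.1 hA).2
    obtain ⟨b, hb⟩ := helly F z (by
      intro A hA B hB
      obtain ⟨c, v, -, hA1, hA2⟩ := hF A hA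
      obtain ⟨c', v', -, hB1, hB2⟩ := hF B hB
      have h1 : (A ∪ B).card ≤ (univ.erase z).card := card_le_card (by
        rw [hA1, hB1]; exact union_subset (filter_subset _ _) (filter_subset _ _))
      have h2 := card_union_add_card_inter A B
      obtain ⟨x, hx⟩ := card_pos.1 (show 0 < (A ∩ B).card by omega)
      exact ⟨x, mem_inter.1 hx⟩) (by
      intro A hA B hB C hC a b c h1 h2 h3 h4 h5 h6 h7 h8 h9
      obtain ⟨c1, v1, V1, rfl, -⟩ := hF A hA
      obtain ⟨c2, v2, V2, rfl, -⟩ := hF B hB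
      obtain ⟨c3, v3, V3, rfl, -⟩ := hF C hC
      have hab : a ≠ b := fun h => h1 (h ▸ h2)
      have hac : a ≠ c := fun h => h1 (h ▸ h3)
      have hbc : b ≠ c := fun h => h5 (h ▸ h6)
      simp only [mem_filter, not_and] at h1 h2 h3 h4 h5 h6 h7 h8 h9
      have hT : ({a, b, c} : Finset (Fin n)) ∈ (univ.erase z).powersetCard 3 := by
        refine mem_powersetCard.2 ⟨?_, card_eq_three.2 ⟨a, b, c, hab, hac, hbc, rfl⟩⟩
        intro x hx
        simp only [mem_insert, mem_singleton] at hx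
        rcases hx with rfl | rfl | rfl
        exacts [h4.1, h2.1, h3.1]
      obtain ⟨m1, x1, hx1, n1, e1⟩ := V1 ⟨_, hT⟩
      obtain ⟨-, x2, hx2, n2, e2⟩ := V2 ⟨_, hT⟩
      obtain ⟨-, x3, hx3, n3, e3⟩ := V3 ⟨_, hT⟩
      simp only [mem_insert, mem_singleton] at m1 hx1 hx2 hx3
      rcases m1 with m1 | m1 | m1 <;> rw [m1] at n1 n2 n3 e1 e2 e3
      · rcases hx1 with rfl | rfl | rfl
        · exact n1 rfl
        · exact h1 h4.1 (e1 ▸ h2.2)
        · exact h1 h4.1 (e1 ▸ h3.2)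
      · rcases hx2 with rfl | rfl | rfl
        · exact h5 h2.1 (e2 ▸ h4.2)
        · exact n2 rfl
        · exact h5 h2.1 (e2 ▸ h6.2)
      · rcases hx3 with rfl | rfl | rfl
        · exact h9 h3.1 (e3 ▸ h7.2)
        · exact h9 h3.1 (e3 ▸ h8.2)
        · exact n3 rfl)
    refine ⟨b, fun c hc => ?_⟩
    have hsum : ((univ.erase z).filter fun x => c x = true).card +
        ((univ.erase z).filter fun x => c x = false).card = (univ.erase z).card := by
      have := card_filter_add_card_filter_not (s := univ.erase z) fun x => c x = true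
      simpa using this
    obtain ⟨v, hv⟩ : ∃ v, k ≤ ((univ.erase z).filter fun x => c x = v).card := by
      by_cases h : k ≤ ((univ.erase z).filter fun x => c x = true).card
      · exact ⟨true, h⟩
      · exact ⟨false, by omega⟩
    have h1 := hb _ (mem_filter.2 ⟨mem_univ _, c, v, hc, rfl, hv⟩)
    have h2 : c b = v := (mem_filter.1 h1).2
    have h3 : ((univ.erase z).filter fun x => c x = v).card ≤
        (univ.filter fun x => c x = c b).card := by
      rw [h2]; exact card_le_card (filter_subset_filter _ (erase_subset _ _))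
    unfold NonMin
    omega
  choose f hf using main
  exact ⟨f, fun c al h => hf al c h⟩

theorem m_even (n : ℕ) (hn : 4 ≤ n) (he : Even n) : m n = 0 := by
  refine Nat.sInf_eq_zero.2 (Or.inl ⟨_, determines ⟨0, by omega⟩ he, ?_⟩)
  refine Nat.sInf_eq_zero.2 (Or.inl ⟨⟨0, by omega⟩, ⟨1, by omega⟩, by simp, ?_⟩)
  refine card_eq_zero.2 (filter_eq_empty_iff.2 fun T hT h => ?_)
  simpa using (mem_powersetCard.1 hT).1 h.1

theorem result :
    (∀ n : ℕ, 4 ≤ n → Even n →
      m n = 0 ∧ ∃ Q : Finset (Finset (Fin n)), Determines Q ∧ ∃ x y, x ≠ y ∧ codeg Q x y = 0) ∧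
    ¬ ∃ C : ℝ, ∀ n : ℕ, 3 ≤ n → |(m n : ℝ) - n / 2| ≤ C := by
  refine ⟨fun n hn he => ⟨m_even n hn he, _, determines ⟨0, by omega⟩ he,
    ⟨0, by omega⟩, ⟨1, by omega⟩, by simp, ?_⟩, ?_⟩
  · refine card_eq_zero.2 (filter_eq_empty_iff.2 fun T hT h => ?_)
    simpa using (mem_powersetCard.1 hT).1 h.1
  · rintro ⟨C, hC⟩
    obtain ⟨k, hk⟩ := exists_nat_gt C
    have h := hC (2 * (k + 2)) (by omega)
    rw [m_even _ (by omega) (even_two_mul _)] at h
    have := (abs_le.1 h).1
    push_cast at this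
    linarith

end Pool.Agent.Results.MP_d92cd9_co.Even
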